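import Pool.Agent.Helper16.AZ.Stmts
import Pool.Agent.Helper91.MD.WMR

/-!
Module MRF: the theorem of Matomaki and Radziwill with weights depending on the shift.
-/

set_option autoImplicit false

open Finset Filter MeasureTheory Topology
open scoped ComplexConjugate InnerProductSpace

namespace Pool.Agent.Helper16.AZ

open Pool.Agent.Helper40.MR (res ST_NT)
open Pool.Agent.Helper16.MD (wmrR wmrB wmr_rest wmr_one wmr_geo_le wmr_shifts wmr_count)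

theorem mrf_main (N L T : ℕ) (s : ℕ → Prop) (ε κ A : ℝ) (hε : 0 ≤ ε) (hA : 0 ≤ A)
    (hA2 : A ^ 2 = (L : ℝ) ^ (2 - κ)) (hX : 1 / 2 ≤ (N : ℝ) / 2 ^ T)
    (h : ∀ t ∈ range T, (Nat.card {n : ℕ // (N : ℝ) / 2 ^ (t + 1) < n ∧
      (n : ℝ) ≤ 2 * ((N : ℝ) / 2 ^ (t + 1)) ∧ ¬ s n} : ℝ) ≤ ε * ((N : ℝ) / 2 ^ (t + 1)) ∧
      ∀ c : ℕ → ℂ, (∀ j, ‖c j‖ ≤ 1) →
      ∑ m ∈ range (⌊2 * ((N : ℝ) / 2 ^ (t + 1))⌋₊ + 1), ‖∑ j ∈ range L,
        res (fun n => (N : ℝ) / 2 ^ (t + 1) < n ∧ (n : ℝ) ≤ 2 * ((N : ℝ) / 2 ^ (t + 1)) ∧ s n)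
          (fun n => (ArithmeticFunction.moebius n : ℂ)) (m + j) * c j‖ ^ 2 ≤
      ((N : ℝ) / 2 ^ (t + 1)) * (L : ℝ) ^ (2 - κ))
    (c : ℕ → ℂ) (hc1 : ∀ n, ‖c n‖ ≤ 1) :
    ∑ m ∈ range N, ‖∑ j ∈ range L, ((ArithmeticFunction.moebius (m + j) : ℤ) : ℂ) * c j‖ ≤
      2 * N * A + L * ((N : ℝ) / 2 ^ T + 1 + L + ε * N) := by
  have hN0 : (0 : ℝ) ≤ N := Nat.cast_nonneg N
  have h1 : ∀ m, ‖∑ j ∈ range L, ((ArithmeticFunction.moebius (m + j) : ℤ) : ℂ) * c j‖ ≤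
      ∑ t ∈ range T, ‖∑ j ∈ range L, wmrR N s t (m + j) * c j‖ +
        ∑ j ∈ range L, wmrB N s T (m + j) := by
    intro m
    have h2 : ∑ j ∈ range L, ((ArithmeticFunction.moebius (m + j) : ℤ) : ℂ) * c j =
        ∑ t ∈ range T, ∑ j ∈ range L, wmrR N s t (m + j) * c j +
        ∑ j ∈ range L, (((ArithmeticFunction.moebius (m + j) : ℤ) : ℂ) -
          ∑ t ∈ range T, wmrR N s t (m + j)) * c j := by
      rw [sum_comm, ← sum_add_distrib]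
      refine sum_congr rfl fun j _ => ?_
      rw [← sum_mul]
      ring
    rw [h2]
    refine (norm_add_le _ _).trans (add_le_add (norm_sum_le _ _) ?_)
    refine (norm_sum_le _ _).trans (sum_le_sum fun j _ => ?_)
    rw [norm_mul]
    have h3 := wmr_rest N hN0 s T (m + j)
    calc ‖((ArithmeticFunction.moebius (m + j) : ℤ) : ℂ) - ∑ t ∈ range T, wmrR N s t (m + j)‖ *
        ‖c j‖ ≤
        ‖((ArithmeticFunction.moebius (m + j) : ℤ) : ℂ) - ∑ t ∈ range T, wmrR N s t (m + j)‖ * 1 :=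
          mul_le_mul_of_nonneg_left (hc1 _) (norm_nonneg _)
      _ ≤ wmrB N s T (m + j) := by rw [mul_one]; exact h3
  have hB0 : ∀ n, 0 ≤ wmrB N s T n := fun n => (norm_nonneg _).trans (wmr_rest N hN0 s T n)
  have h2 : ∑ m ∈ range N, ∑ t ∈ range T, ‖∑ j ∈ range L, wmrR N s t (m + j) * c j‖ ≤
      2 * N * A := by
    rw [sum_comm]
    calc ∑ t ∈ range T, ∑ m ∈ range N, ‖∑ j ∈ range L, wmrR N s t (m + j) * c j‖
        ≤ ∑ t ∈ range T, 2 * ((N : ℝ) / 2 ^ (t + 1)) * A := by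
          refine sum_le_sum fun t ht => ?_
          refine wmr_one N L s t κ A hA hA2 ?_ (h t ht).2 c hc1
          refine hX.trans ?_
          exact div_le_div_of_nonneg_left hN0 (by positivity)
            (pow_le_pow_right₀ one_le_two (Nat.succ_le_of_lt (mem_range.mp ht)))
      _ = 2 * A * ∑ t ∈ range T, (N : ℝ) / 2 ^ (t + 1) := by
          rw [mul_sum]
          exact sum_congr rfl fun t _ => by ring
      _ ≤ 2 * A * N := by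
          refine mul_le_mul_of_nonneg_left (wmr_geo_le N hN0 T) ?_
          positivity
      _ = 2 * N * A := by ring
  calc ∑ m ∈ range N, ‖∑ j ∈ range L, ((ArithmeticFunction.moebius (m + j) : ℤ) : ℂ) * c j‖
      ≤ ∑ m ∈ range N, (∑ t ∈ range T, ‖∑ j ∈ range L, wmrR N s t (m + j) * c j‖ +
        ∑ j ∈ range L, wmrB N s T (m + j)) := sum_le_sum fun m _ => h1 m
    _ = ∑ m ∈ range N, ∑ t ∈ range T, ‖∑ j ∈ range L, wmrR N s t (m + j) * c j‖ +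
        ∑ m ∈ range N, ∑ j ∈ range L, wmrB N s T (m + j) := sum_add_distrib
    _ ≤ 2 * N * A + L * ((N : ℝ) / 2 ^ T + 1 + L + ε * N) := by
        refine add_le_add h2 ((wmr_shifts _ hB0 N L).trans ?_)
        exact mul_le_mul_of_nonneg_left (wmr_count N L T s ε (fun t ht => (h t ht).1) hε)
          (Nat.cast_nonneg L)

theorem st_MRF (h : Pool.Agent.Helper40.MR.ST_NT) : ST_MRF := by
  intro δ hδ
  obtain ⟨T, hT⟩ := exists_pow_lt_of_lt_one (show (0 : ℝ) < min (δ / 8) 1 by positivity)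
    (show (1 / 2 : ℝ) < 1 by norm_num)
  obtain ⟨hT1, hT2⟩ := lt_min_iff.mp hT
  have hε : (0 : ℝ) < (1 / 2) ^ T := by positivity
  obtain ⟨κ, hκ, L₀, hL₀⟩ := h ((1 / 2) ^ T) hε hT2
  have hlim : Tendsto (fun L : ℕ => (L : ℝ) ^ (-(κ / 2))) atTop (nhds 0) :=
    (tendsto_rpow_neg_atTop (show (0 : ℝ) < κ / 2 by positivity)).comp tendsto_natCast_atTop_atTop
  have hev : ∀ᶠ L : ℕ in atTop, (L : ℝ) ^ (-(κ / 2)) < δ / 4 :=
    hlim.eventually (gt_mem_nhds (by positivity))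
  obtain ⟨L₁, hL₁⟩ := eventually_atTop.mp
    ((hev.and (eventually_ge_atTop L₀)).and (eventually_ge_atTop 1))
  refine ⟨L₁, fun L hLL => ?_⟩
  obtain ⟨⟨hL1, hL2⟩, hL3⟩ := hL₁ L hLL
  obtain ⟨Z₀, hZ₀⟩ := hL₀ L hL2
  have hLpos : (0 : ℝ) < L := by exact_mod_cast hL3
  obtain ⟨N₁, hN₁⟩ := exists_nat_ge (max Z₀ (max ((L + 1) * 4 / δ) (2 ^ T)))
  refine ⟨N₁, ?_⟩
  intro N hN c hc1
  have hNr : (N₁ : ℝ) ≤ N := by exact_mod_cast hN
  have hN2 : Z₀ ≤ (N : ℝ) := (le_max_left _ _).trans (hN₁.trans hNr)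
  have hN3 : (L + 1) * 4 / δ ≤ (N : ℝ) :=
    (le_max_left _ _).trans ((le_max_right _ _).trans (hN₁.trans hNr))
  have hN4 : (2 : ℝ) ^ T ≤ (N : ℝ) :=
    (le_max_right _ _).trans ((le_max_right _ _).trans (hN₁.trans hNr))
  have hN0 : (0 : ℝ) ≤ N := Nat.cast_nonneg N
  obtain ⟨s, hs⟩ := hZ₀ N hN2
  have hA2 : ((L : ℝ) ^ (1 - κ / 2)) ^ 2 = (L : ℝ) ^ (2 - κ) := by
    rw [← Real.rpow_natCast, ← Real.rpow_mul hLpos.le]
    congr 1
    push_cast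
    ring
  have hA : (L : ℝ) ^ (1 - κ / 2) ≤ L * (δ / 4) := by
    rw [sub_eq_add_neg, Real.rpow_add hLpos, Real.rpow_one]
    exact mul_le_mul_of_nonneg_left hL1.le hLpos.le
  have hX : (1 : ℝ) / 2 ≤ (N : ℝ) / 2 ^ T := by
    rw [le_div_iff₀ (by positivity)]
    linarith
  have hh : ∀ t ∈ range T, (Nat.card {n : ℕ // (N : ℝ) / 2 ^ (t + 1) < n ∧
      (n : ℝ) ≤ 2 * ((N : ℝ) / 2 ^ (t + 1)) ∧ ¬ s n} : ℝ) ≤
        (1 / 2) ^ T * ((N : ℝ) / 2 ^ (t + 1)) ∧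
      ∀ c : ℕ → ℂ, (∀ j, ‖c j‖ ≤ 1) →
      ∑ m ∈ range (⌊2 * ((N : ℝ) / 2 ^ (t + 1))⌋₊ + 1), ‖∑ j ∈ range L,
        res (fun n => (N : ℝ) / 2 ^ (t + 1) < n ∧ (n : ℝ) ≤ 2 * ((N : ℝ) / 2 ^ (t + 1)) ∧ s n)
          (fun n => (ArithmeticFunction.moebius n : ℂ)) (m + j) * c j‖ ^ 2 ≤
      ((N : ℝ) / 2 ^ (t + 1)) * (L : ℝ) ^ (2 - κ) := by
    intro t ht
    have h2 : (2 : ℝ) ^ (t + 1) ≤ 2 ^ T :=
      pow_le_pow_right₀ one_le_two (Nat.succ_le_of_lt (mem_range.mp ht))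
    refine hs _ ?_ ?_
    · rw [one_div, inv_pow, mul_comm, ← div_eq_mul_inv]
      exact div_le_div_of_nonneg_left hN0 (by positivity) h2
    · refine div_le_self hN0 ?_
      exact one_le_pow₀ one_le_two
  have hm := mrf_main N L T s ((1 / 2) ^ T) κ ((L : ℝ) ^ (1 - κ / 2)) hε.le
    (Real.rpow_nonneg hLpos.le _) hA2 hX hh c hc1
  refine hm.trans ?_
  have e1 : 2 * (N : ℝ) * (L : ℝ) ^ (1 - κ / 2) ≤ δ / 2 * L * N := by
    calc 2 * (N : ℝ) * (L : ℝ) ^ (1 - κ / 2) ≤ 2 * N * (L * (δ / 4)) :=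
          mul_le_mul_of_nonneg_left hA (by positivity)
      _ = δ / 2 * L * N := by ring
  have e2 : (N : ℝ) / 2 ^ T = (1 / 2) ^ T * N := by
    rw [one_div, inv_pow]
    field_simp
  have e3 : (1 / 2 : ℝ) ^ T * N ≤ δ / 8 * N := mul_le_mul_of_nonneg_right hT1.le hN0
  have e4 : (L : ℝ) + 1 ≤ δ / 4 * N := by
    rw [div_le_iff₀ hδ] at hN3
    linarith
  have e5 : (L : ℝ) * ((N : ℝ) / 2 ^ T + 1 + L + (1 / 2) ^ T * N) ≤ L * (δ / 2 * N) := by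
    refine mul_le_mul_of_nonneg_left ?_ hLpos.le
    rw [e2]
    linarith
  calc 2 * (N : ℝ) * (L : ℝ) ^ (1 - κ / 2) + L * ((N : ℝ) / 2 ^ T + 1 + L + (1 / 2) ^ T * N)
      ≤ δ / 2 * L * N + L * (δ / 2 * N) := add_le_add e1 e5
    _ = δ * L * N := by ring

end Pool.Agent.Helper16.AZ
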